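import Pool.Agent.Helper68.BA.Defs
import Pool.Agent.Helper5.BAM.C
import Pool.Agent.Helper77.BAM.KE
import Pool.Agent.Helper7.BAM.CA
import Pool.Agent.Helper23.BAM.E1
import Pool.Agent.Helper23.BAM.E2

/-!
Module KB: bounds for the L1 norms of the kernels.
-/

set_option autoImplicit false

noncomputable section

namespace Pool.Agent.Helper68.BA

open MeasureTheory Set Filter Topology Complex
open scoped ContDiff

namespace KB

theorem int_pow (f : ℝ → ℝ) (hf : Continuous f) (b : ℝ) (hb : 0 < b) (C : ℝ)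
    (hC : ∀ u : ℝ, 0 ≤ u → |f u| ≤ C * Real.exp (-b * u)) (k : ℕ) :
    IntegrableOn (fun u => u ^ k * f u ^ 2) (Ioi 0) := by
  refine integrable_of_isBigO_exp_neg hb (by fun_prop) ?_
  have h1 : (fun u : ℝ => u ^ k) =O[atTop] fun u => Real.exp (b * u) :=
    (isLittleO_pow_exp_pos_mul_atTop k hb).isBigO
  have h2 : (fun u : ℝ => f u ^ 2) =O[atTop] fun u => Real.exp (-(2 * b) * u) := by
    refine Asymptotics.IsBigO.of_bound (C ^ 2) ?_
    filter_upwards [eventually_ge_atTop (0 : ℝ)] with u hu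
    rw [Real.norm_eq_abs, Real.norm_eq_abs, abs_pow, Real.abs_exp]
    have h3 := hC u hu
    have h4 : |f u| ^ 2 ≤ (C * Real.exp (-b * u)) ^ 2 := pow_le_pow_left₀ (abs_nonneg _) h3 2
    have h5 : (C * Real.exp (-b * u)) ^ 2 = C ^ 2 * Real.exp (-(2 * b) * u) := by
      rw [mul_pow, ← Real.exp_nat_mul]
      congr 2
      push_cast
      ring
    rwa [h5] at h4
  refine (h1.mul h2).congr_right fun u => ?_
  rw [← Real.exp_add]
  congr 1
  ring

theorem int_quad (f : ℝ → ℝ) (hf : Continuous f) (b : ℝ) (hb : 0 < b) (C : ℝ)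
    (hC : ∀ u : ℝ, 0 ≤ u → |f u| ≤ C * Real.exp (-b * u)) (y0 δ : ℝ) :
    IntegrableOn (fun u => (u - y0) ^ 2 * f u ^ 2) (Ioi 0) ∧
    IntegrableOn (fun u => ((u - y0) ^ 2 + δ ^ 2) * f u ^ 2) (Ioi 0) ∧
    ∫ u in Ioi (0 : ℝ), ((u - y0) ^ 2 + δ ^ 2) * f u ^ 2 =
      (∫ u in Ioi (0 : ℝ), (u - y0) ^ 2 * f u ^ 2) + δ ^ 2 * ∫ u in Ioi (0 : ℝ), f u ^ 2 := by
  have h0 := int_pow f hf b hb C hC 0
  have h1 := int_pow f hf b hb C hC 1
  have h2 := int_pow f hf b hb C hC 2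
  have h0' : IntegrableOn (fun u => f u ^ 2) (Ioi 0) := by simpa using h0
  have e1 : IntegrableOn (fun u => (u - y0) ^ 2 * f u ^ 2) (Ioi 0) := by
    have := (h2.sub (h1.const_mul (2 * y0))).add (h0'.const_mul (y0 ^ 2))
    refine this.congr (Eventually.of_forall fun u => ?_)
    simp only [Pi.add_apply, Pi.sub_apply]
    ring
  have e2 : IntegrableOn (fun u => δ ^ 2 * f u ^ 2) (Ioi 0) := h0'.const_mul _
  have e3 : (fun u => ((u - y0) ^ 2 + δ ^ 2) * f u ^ 2) =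
      fun u => (u - y0) ^ 2 * f u ^ 2 + δ ^ 2 * f u ^ 2 := by
    funext u
    ring
  refine ⟨e1, ?_, ?_⟩
  · rw [e3]
    exact e1.add e2
  · rw [e3, integral_add e1 e2, integral_const_mul]

/-! ### finite sums -/

theorem sum_A (b : ℝ) (m : ℕ) :
    ∑ i ∈ Finset.range m, 2 * (b + i + 1) = m * (2 * b + m + 1) := by
  induction m with
  | zero => simp
  | succ m ih =>
    rw [Finset.sum_range_succ, ih]
    push_cast
    ring

theorem sum_B (b : ℝ) (hb : 1 / 2 ≤ b) (m : ℕ) :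
    ∑ i ∈ Finset.range m, ∑ j ∈ Finset.range m, 2 / (2 * b + i + j + 2) ≤
      4 * (m : ℝ) ^ 2 / (2 * b + m + 1) := by
  induction m with
  | zero => simp
  | succ m ih =>
    have hm : (0 : ℝ) ≤ m := Nat.cast_nonneg m
    have e1 : ∑ i ∈ Finset.range (m + 1), ∑ j ∈ Finset.range (m + 1),
        2 / (2 * b + (i : ℝ) + j + 2) =
        (∑ i ∈ Finset.range m, ∑ j ∈ Finset.range m, 2 / (2 * b + (i : ℝ) + j + 2)) +
          2 * (∑ i ∈ Finset.range m, 2 / (2 * b + (i : ℝ) + m + 2)) +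
            2 / (2 * b + m + m + 2) := by
      rw [Finset.sum_range_succ]
      simp_rw [Finset.sum_range_succ]
      rw [Finset.sum_add_distrib]
      have : ∑ x ∈ Finset.range m, 2 / (2 * b + (m : ℝ) + x + 2) =
          ∑ x ∈ Finset.range m, 2 / (2 * b + (x : ℝ) + m + 2) := by
        refine Finset.sum_congr rfl fun x _ => ?_
        congr 1
        ring
      rw [this]
      ring
    have e2 : ∑ i ∈ Finset.range m, 2 / (2 * b + (i : ℝ) + m + 2) ≤
        m * (2 / (2 * b + m + 2)) := by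
      have : ∑ i ∈ Finset.range m, 2 / (2 * b + (i : ℝ) + m + 2) ≤
          ∑ _i ∈ Finset.range m, 2 / (2 * b + m + 2) := by
        refine Finset.sum_le_sum fun i _ => ?_
        have hi : (0 : ℝ) ≤ i := Nat.cast_nonneg i
        apply div_le_div_of_nonneg_left (by norm_num) (by linarith) (by linarith)
      refine this.trans (le_of_eq ?_)
      rw [Finset.sum_const, Finset.card_range, nsmul_eq_mul]
    rw [e1]
    set S : ℝ := 2 * b + m + 1 with hS
    have hS2 : (m : ℝ) + 2 ≤ S := by rw [hS]; linarith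
    have hS0 : 0 < S := by linarith
    have e3 : 2 * b + (m : ℝ) + 2 = S + 1 := by rw [hS]; ring
    have e4 : 2 * b + (m : ℝ) + m + 2 = S + m + 1 := by rw [hS]; ring
    have e5 : 2 * b + ((m + 1 : ℕ) : ℝ) + 1 = S + 1 := by rw [hS]; push_cast; ring
    rw [e3] at e2
    rw [e4, e5]
    push_cast
    have e6 : 4 * (m : ℝ) ^ 2 / S + 2 * (m * (2 / (S + 1))) + 2 / (S + m + 1) ≤
        4 * ((m : ℝ) + 1) ^ 2 / (S + 1) := by
      rw [← sub_nonneg]
      have e7 : 4 * ((m : ℝ) + 1) ^ 2 / (S + 1) -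
          (4 * (m : ℝ) ^ 2 / S + 2 * (m * (2 / (S + 1))) + 2 / (S + m + 1)) =
          ((4 * ((m : ℝ) + 1) * S - 4 * m ^ 2) * (S + m + 1) - 2 * S * (S + 1)) /
            (S * (S + 1) * (S + m + 1)) := by
        field_simp
        ring
      rw [e7]
      apply div_nonneg _ (by positivity)
      have h1 : 4 * S ≤ 4 * ((m : ℝ) + 1) * S - 4 * m ^ 2 := by nlinarith
      have h2 : 4 * S * (S + m + 1) ≤ (4 * ((m : ℝ) + 1) * S - 4 * m ^ 2) * (S + m + 1) :=
        mul_le_mul_of_nonneg_right h1 (by linarith)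
      nlinarith
    linarith

theorem sum_T1 (b : ℝ) (hb : 0 < b) (m : ℕ) :
    ∑ i ∈ Finset.range m, 1 / ((b + i + 1) * (2 * b + i + 1)) ≤
      10 / (14 * b + 5) - 10 / (14 * b + 5 + 10 * m) := by
  induction m with
  | zero => simp
  | succ m ih =>
    have hm : (0 : ℝ) ≤ m := Nat.cast_nonneg m
    rw [Finset.sum_range_succ]
    have h : 1 / ((b + (m : ℝ) + 1) * (2 * b + m + 1)) ≤
        10 / (14 * b + 5 + 10 * m) - 10 / (14 * b + 5 + 10 * ((m + 1 : ℕ) : ℝ)) := by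
      have e1 : 10 / (14 * b + 5 + 10 * (m : ℝ)) - 10 / (14 * b + 5 + 10 * ((m + 1 : ℕ) : ℝ)) =
          100 / ((14 * b + 5 + 10 * m) * (14 * b + 15 + 10 * m)) := by
        push_cast
        have h1 : 14 * b + 5 + 10 * (m : ℝ) ≠ 0 := by positivity
        have h2 : 14 * b + 5 + 10 * ((m : ℝ) + 1) ≠ 0 := by positivity
        have h3 : 14 * b + 15 + 10 * (m : ℝ) ≠ 0 := by positivity
        rw [div_sub_div _ _ h1 h2, div_eq_div_iff (mul_ne_zero h1 h2) (mul_ne_zero h1 h3)]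
        ring
      rw [e1, div_le_div_iff₀ (by positivity) (by positivity)]
      nlinarith [mul_nonneg hb.le hm, sq_nonneg b]
    linarith

theorem sum_P (b : ℝ) (hb : 0 < b) (m : ℕ) :
    ∑ j ∈ Finset.range m, (∑ i ∈ Finset.range j, 1 / (2 * b + i + 1)) *
      (1 / ((2 * b + j + 1) * (2 * b + j + 2))) =
      1 / (2 * b + 1) - (1 + ∑ i ∈ Finset.range m, 1 / (2 * b + i + 1)) / (2 * b + m + 1) := by
  induction m with
  | zero => simp
  | succ m ih =>
    have hm : (0 : ℝ) ≤ m := Nat.cast_nonneg m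
    rw [Finset.sum_range_succ, ih, Finset.sum_range_succ]
    set H : ℝ := ∑ i ∈ Finset.range m, 1 / (2 * b + (i : ℝ) + 1) with hH
    have h1 : 2 * b + (m : ℝ) + 1 ≠ 0 := by positivity
    have h2 : 2 * b + (m : ℝ) + 2 ≠ 0 := by positivity
    have h3 : 2 * b + ((m + 1 : ℕ) : ℝ) + 1 = 2 * b + m + 2 := by push_cast; ring
    rw [h3]
    field_simp
    ring

theorem sum_D (b : ℝ) (hb : 0 < b) (m : ℕ) :
    ∑ j ∈ Finset.range m, ∑ i ∈ Finset.range j,
      1 / ((2 * b + i + 1) * (2 * b + j + 1) * (2 * b + i + j + 2)) ≤ 1 / (2 * b + 1) := by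
  have h1 : ∑ j ∈ Finset.range m, ∑ i ∈ Finset.range j,
      1 / ((2 * b + (i : ℝ) + 1) * (2 * b + j + 1) * (2 * b + i + j + 2)) ≤
      ∑ j ∈ Finset.range m, (∑ i ∈ Finset.range j, 1 / (2 * b + (i : ℝ) + 1)) *
        (1 / ((2 * b + j + 1) * (2 * b + j + 2))) := by
    refine Finset.sum_le_sum fun j _ => ?_
    rw [Finset.sum_mul]
    refine Finset.sum_le_sum fun i _ => ?_
    have hi : (0 : ℝ) ≤ i := Nat.cast_nonneg i
    have hj : (0 : ℝ) ≤ j := Nat.cast_nonneg j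
    rw [div_mul_div_comm, one_mul]
    apply div_le_div_of_nonneg_left (by norm_num) (by positivity)
    have : (2 * b + (i : ℝ) + 1) * ((2 * b + j + 1) * (2 * b + j + 2)) ≤
        (2 * b + (i : ℝ) + 1) * ((2 * b + j + 1) * (2 * b + i + j + 2)) := by
      gcongr
      linarith
    linarith
  refine h1.trans ?_
  rw [sum_P b hb m]
  have h2 : 0 ≤ (1 + ∑ i ∈ Finset.range m, 1 / (2 * b + (i : ℝ) + 1)) / (2 * b + m + 1) := by
    have : 0 ≤ ∑ i ∈ Finset.range m, 1 / (2 * b + (i : ℝ) + 1) :=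
      Finset.sum_nonneg fun i _ => by positivity
    positivity
  linarith

theorem sum_T1' (b : ℝ) (hb : 0 < b) (m : ℕ) :
    ∑ i ∈ Finset.range m, 1 / ((b + i + 1) * (2 * b + i + 1)) ≤ m / (2 * b ^ 2) := by
  have : ∑ i ∈ Finset.range m, 1 / ((b + (i : ℝ) + 1) * (2 * b + i + 1)) ≤
      ∑ _i ∈ Finset.range m, 1 / (2 * b ^ 2) := by
    refine Finset.sum_le_sum fun i _ => ?_
    have hi : (0 : ℝ) ≤ i := Nat.cast_nonneg i
    apply div_le_div_of_nonneg_left (by norm_num) (by positivity)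
    nlinarith [mul_nonneg hb.le hi]
  refine this.trans (le_of_eq ?_)
  rw [Finset.sum_const, Finset.card_range, nsmul_eq_mul]
  ring

theorem sum_D' (b : ℝ) (hb : 0 < b) (m : ℕ) :
    ∑ j ∈ Finset.range m, ∑ i ∈ Finset.range j,
      1 / ((2 * b + i + 1) * (2 * b + j + 1) * (2 * b + i + j + 2)) ≤
        (m : ℝ) * (m - 1) / 2 / (8 * b ^ 3) := by
  induction m with
  | zero => simp
  | succ m ih =>
    have hm : (0 : ℝ) ≤ m := Nat.cast_nonneg m
    rw [Finset.sum_range_succ]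
    have : ∑ i ∈ Finset.range m,
        1 / ((2 * b + (i : ℝ) + 1) * (2 * b + m + 1) * (2 * b + i + m + 2)) ≤
        ∑ _i ∈ Finset.range m, 1 / (8 * b ^ 3) := by
      refine Finset.sum_le_sum fun i _ => ?_
      have hi : (0 : ℝ) ≤ i := Nat.cast_nonneg i
      apply div_le_div_of_nonneg_left (by norm_num) (by positivity)
      have : 8 * b ^ 3 = (2 * b) * (2 * b) * (2 * b) := by ring
      rw [this]
      gcongr <;> linarith
    rw [Finset.sum_const, Finset.card_range, nsmul_eq_mul] at this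
    have e : ((m + 1 : ℕ) : ℝ) * (((m + 1 : ℕ) : ℝ) - 1) / 2 / (8 * b ^ 3) =
        (m : ℝ) * (m - 1) / 2 / (8 * b ^ 3) + m * (1 / (8 * b ^ 3)) := by
      push_cast
      field_simp
      ring
    rw [e]
    linarith

/-- the first estimate of the variance -/
theorem var1 (b : ℝ) (hb : 1 / 2 ≤ b) (m : ℕ) :
    1 / (8 * b ^ 3) + (1 / b) * ∑ i ∈ Finset.range m, 1 / ((b + i + 1) * (2 * b + i + 1)) +
        4 * ∑ j ∈ Finset.range m, ∑ i ∈ Finset.range j,
          1 / ((2 * b + i + 1) * (2 * b + j + 1) * (2 * b + i + j + 2)) ≤ 7 / (3 * b) := by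
  have hb0 : 0 < b := by linarith
  have hm : (0 : ℝ) ≤ m := Nat.cast_nonneg m
  have h1 := sum_T1 b hb0 m
  have h1' : ∑ i ∈ Finset.range m, 1 / ((b + (i : ℝ) + 1) * (2 * b + i + 1)) ≤
      10 / (14 * b + 5) := by
    have : 0 ≤ 10 / (14 * b + 5 + 10 * (m : ℝ)) := by positivity
    linarith
  have h2 := sum_D b hb0 m
  have h3 : (1 / b) * ∑ i ∈ Finset.range m, 1 / ((b + (i : ℝ) + 1) * (2 * b + i + 1)) ≤
      (1 / b) * (10 / (14 * b + 5)) := mul_le_mul_of_nonneg_left h1' (by positivity)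
  have h4 : 1 / (8 * b ^ 3) + (1 / b) * (10 / (14 * b + 5)) + 4 * (1 / (2 * b + 1)) ≤
      7 / (3 * b) := by
    rw [← sub_nonneg]
    obtain ⟨t, ht0, rfl⟩ : ∃ t : ℝ, 0 ≤ t ∧ b = t + 1 / 2 := ⟨b - 1 / 2, by linarith, by ring⟩
    have e : 7 / (3 * (t + 1 / 2)) - (1 / (8 * (t + 1 / 2) ^ 3) + (1 / (t + 1 / 2)) *
        (10 / (14 * (t + 1 / 2) + 5)) + 4 * (1 / (2 * (t + 1 / 2) + 1))) =
        (224 * t ^ 4 + 832 * t ^ 3 + 868 * t ^ 2 + 284 * t) /
          (3 * 8 * (t + 1 / 2) ^ 3 * (14 * (t + 1 / 2) + 5) * (2 * (t + 1 / 2) + 1)) := by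
      have h5 : t + 1 / 2 ≠ 0 := by positivity
      have h6 : 14 * (t + 1 / 2) + 5 ≠ 0 := by positivity
      have h7 : 2 * (t + 1 / 2) + 1 ≠ 0 := by positivity
      field_simp
      ring
    rw [e]
    positivity
  linarith


/-- the second estimate of the variance -/
theorem var2 (b : ℝ) (hb : 0 < b) (m : ℕ) :
    1 / (8 * b ^ 3) + (1 / b) * ∑ i ∈ Finset.range m, 1 / ((b + i + 1) * (2 * b + i + 1)) +
        4 * ∑ j ∈ Finset.range m, ∑ i ∈ Finset.range j,
          1 / ((2 * b + i + 1) * (2 * b + j + 1) * (2 * b + i + j + 2)) ≤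
      ((m : ℝ) + 1) ^ 2 / (4 * b ^ 3) := by
  have hm : (0 : ℝ) ≤ m := Nat.cast_nonneg m
  have h1 := sum_T1' b hb m
  have h2 := sum_D' b hb m
  have h3 : (1 / b) * ∑ i ∈ Finset.range m, 1 / ((b + (i : ℝ) + 1) * (2 * b + i + 1)) ≤
      (1 / b) * (m / (2 * b ^ 2)) := mul_le_mul_of_nonneg_left h1 (by positivity)
  have h4 : 1 / (8 * b ^ 3) + (1 / b) * (m / (2 * b ^ 2)) +
      4 * ((m : ℝ) * (m - 1) / 2 / (8 * b ^ 3)) ≤ ((m : ℝ) + 1) ^ 2 / (4 * b ^ 3) := by
    rw [← sub_nonneg]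
    have e : ((m : ℝ) + 1) ^ 2 / (4 * b ^ 3) - (1 / (8 * b ^ 3) + (1 / b) * (m / (2 * b ^ 2)) +
      4 * ((m : ℝ) * (m - 1) / 2 / (8 * b ^ 3))) = (2 * m + 1) / (8 * b ^ 3) := by
      field_simp
      ring
    rw [e]
    positivity
  linarith

theorem var_pos (b : ℝ) (hb : 0 < b) (m : ℕ) :
    0 < 1 / (8 * b ^ 3) + (1 / b) * ∑ i ∈ Finset.range m, 1 / ((b + i + 1) * (2 * b + i + 1)) +
        4 * ∑ j ∈ Finset.range m, ∑ i ∈ Finset.range j,
          1 / ((2 * b + i + 1) * (2 * b + j + 1) * (2 * b + i + j + 2)) := by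
  have h1 : 0 ≤ ∑ i ∈ Finset.range m, 1 / ((b + (i : ℝ) + 1) * (2 * b + i + 1)) :=
    Finset.sum_nonneg fun i _ => by positivity
  have h2 : 0 ≤ ∑ j ∈ Finset.range m, ∑ i ∈ Finset.range j,
      1 / ((2 * b + (i : ℝ) + 1) * (2 * b + j + 1) * (2 * b + i + j + 2)) :=
    Finset.sum_nonneg fun j _ => Finset.sum_nonneg fun i _ => by positivity
  positivity

theorem kk_abs (b : ℝ) (hb : 1 / 2 ≤ b) (m : ℕ) (hm : 1 ≤ m) :
    IntegrableOn (kk b m) (Ioi 0) ∧
      ∫ u in Ioi (0 : ℝ), |kk b m u| ≤ 2.5067 * ((3 * m + 1) / 4) := by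
  have hb0 : 0 < b := by linarith
  have hm1 : (1 : ℝ) ≤ m := by exact_mod_cast hm
  obtain ⟨C, hC⟩ := kk_decay b hb0 m
  set S : ℝ := 2 * b + m + 1 with hS
  have hS0 : 0 < S := by positivity
  set δ : ℝ := ((m : ℝ) + 1) / S with hδ
  have hδ0 : 0 < δ := by positivity
  obtain ⟨h1, h2, h3⟩ := int_quad (kk b m) (kk_continuous b m) b hb0 C hC 0 δ
  simp only [sub_zero] at h1 h2 h3
  obtain ⟨h4, h5⟩ := carlson_zero (kk b m) (kk_continuous b m) δ hδ0 h2
  refine ⟨h4, ?_⟩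
  rw [h3, kk_sq2 b hb0 m, kk_sq b hb0 m, sum_A] at h5
  have h6 := sum_B b hb m
  rw [← hS] at h5 h6
  set I : ℝ := ∫ u in Ioi (0 : ℝ), |kk b m u| with hI
  have h7 : I ^ 2 ≤ Real.pi / (2 * δ) * (4 * (m : ℝ) ^ 2 / S + δ ^ 2 * (m * S)) := by
    refine h5.trans (mul_le_mul_of_nonneg_left ?_ (by positivity))
    linarith
  have h8 : Real.pi / (2 * δ) * (4 * (m : ℝ) ^ 2 / S + δ ^ 2 * (m * S)) =
      Real.pi / 2 * (4 * m ^ 2 / (m + 1) + m * (m + 1)) := by
    rw [hδ]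
    field_simp
  have h9 : 4 * (m : ℝ) ^ 2 / (m + 1) + m * (m + 1) ≤ (3 * m + 1) ^ 2 / 4 := by
    rw [← sub_nonneg]
    have e : (3 * (m : ℝ) + 1) ^ 2 / 4 - (4 * (m : ℝ) ^ 2 / (m + 1) + m * (m + 1)) =
        (m - 1) ^ 2 * (5 * m + 1) / (4 * (m + 1)) := by
      field_simp
      ring
    rw [e]
    positivity
  have h10 : I ^ 2 ≤ (2.5067 * ((3 * (m : ℝ) + 1) / 4)) ^ 2 := by
    rw [h8] at h7
    refine h7.trans ?_
    calc Real.pi / 2 * (4 * (m : ℝ) ^ 2 / (m + 1) + m * (m + 1))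
        ≤ Real.pi / 2 * ((3 * m + 1) ^ 2 / 4) :=
          mul_le_mul_of_nonneg_left h9 (by positivity)
      _ ≤ 3.1416 / 2 * ((3 * (m : ℝ) + 1) ^ 2 / 4) := by
          have := Real.pi_lt_d4
          gcongr
      _ ≤ (2.5067 * ((3 * (m : ℝ) + 1) / 4)) ^ 2 := by
          nlinarith [sq_nonneg (3 * (m : ℝ) + 1)]
  exact le_of_sq_le_sq h10 (by positivity)

theorem eta_abs (b : ℝ) (hb : 1 / 2 ≤ b) (m : ℕ) (hm : 1 ≤ m) :
    IntegrableOn (eta b m b) (Ioi 0) ∧
      (2 * b + m + 1) * ∫ u in Ioi (0 : ℝ), |eta b m b u| ≤ 3.6845 * (m + 2) := by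
  have hb0 : 0 < b := by linarith
  have hm1 : (1 : ℝ) ≤ m := by exact_mod_cast hm
  obtain ⟨C, hC⟩ := eta_decay b hb0 m b le_rfl
  obtain ⟨y0, hy0⟩ := eta_var b hb0 m
  have hM0 : ∫ u in Ioi (0 : ℝ), eta b m b u ^ 2 = 1 / (2 * b) := by
    have hne : ∀ i : ℕ, i < m → b ≠ b + i + 1 := by
      intro i _ h
      have : (0 : ℝ) ≤ i := Nat.cast_nonneg i
      linarith
    have := eta_I0 b hb0 m b b le_rfl le_rfl hne hne
    rw [← two_mul] at this
    rw [← this]
    congr 1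
    funext u
    ring
  set V : ℝ := 1 / (8 * b ^ 3) + (1 / b) * ∑ i ∈ Finset.range m,
    1 / ((b + i + 1) * (2 * b + i + 1)) + 4 * ∑ j ∈ Finset.range m, ∑ i ∈ Finset.range j,
      1 / ((2 * b + i + 1) * (2 * b + j + 1) * (2 * b + i + j + 2)) with hV
  have key : ∀ δ : ℝ, 0 < δ → IntegrableOn (eta b m b) (Ioi 0) ∧
      (∫ u in Ioi (0 : ℝ), |eta b m b u|) ^ 2 ≤ Real.pi / δ * (V + δ ^ 2 * (1 / (2 * b))) := by
    intro δ hδ
    obtain ⟨h1, h2, h3⟩ := int_quad (eta b m b) (eta_continuous b m b) b hb0 C hC y0 δ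
    obtain ⟨h4, h5⟩ := carlson_shift (eta b m b) (eta_continuous b m b) y0 δ hδ h2
    rw [h3, hy0, hM0] at h5
    exact ⟨h4, h5⟩
  refine ⟨(key 1 one_pos).1, ?_⟩
  set I : ℝ := ∫ u in Ioi (0 : ℝ), |eta b m b u| with hI
  have hI0 : 0 ≤ I := integral_nonneg fun u => abs_nonneg _
  have hpi := Real.pi_lt_d4
  have hpi0 := Real.pi_pos
  have hmain : ((2 * b + m + 1) * I) ^ 2 ≤ (3.6845 * ((m : ℝ) + 2)) ^ 2 := by
    rcases le_total b (m + 1) with hcase | hcase
    · have h1 := (key 2.16 (by norm_num)).2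
      have h2 := var1 b hb m
      rw [← hV] at h2
      have h3 : I ^ 2 ≤ 3.1416 * 2.16025 / b := by
        calc I ^ 2 ≤ Real.pi / 2.16 * (V + 2.16 ^ 2 * (1 / (2 * b))) := h1
          _ ≤ Real.pi / 2.16 * (7 / (3 * b) + 2.16 ^ 2 * (1 / (2 * b))) := by gcongr
          _ = Real.pi * ((7 / 3 / 2.16 + 1.08) / b) := by
              field_simp
              ring
          _ ≤ 3.1416 * (2.16025 / b) := by
              gcongr
              norm_num
          _ = 3.1416 * 2.16025 / b := by ring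
      have h4 : (2 * b + m + 1) ^ 2 ≤ 2 * b * ((m : ℝ) + 2) ^ 2 := by
        have h5 : 0 ≤ (2 * b - 1) * (((m : ℝ) + 1) ^ 2 - 2 * b) := by
          apply mul_nonneg (by linarith)
          nlinarith
        nlinarith
      calc ((2 * b + m + 1) * I) ^ 2 = (2 * b + m + 1) ^ 2 * I ^ 2 := by ring
        _ ≤ (2 * b * ((m : ℝ) + 2) ^ 2) * (3.1416 * 2.16025 / b) := by gcongr
        _ = 2 * 3.1416 * 2.16025 * ((m : ℝ) + 2) ^ 2 := by
            field_simp
        _ ≤ (3.6845 * ((m : ℝ) + 2)) ^ 2 := by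
            nlinarith [sq_nonneg ((m : ℝ) + 2)]
    · have h1 := (key (0.7 * (m + 1) / b) (by positivity)).2
      have h2 := var2 b hb0 m
      rw [← hV] at h2
      have h3 : I ^ 2 ≤ 3.1416 * 0.70715 * (m + 1) / b ^ 2 := by
        calc I ^ 2 ≤ Real.pi / (0.7 * (m + 1) / b) * (V + (0.7 * (m + 1) / b) ^ 2 *
              (1 / (2 * b))) := h1
          _ ≤ Real.pi / (0.7 * (m + 1) / b) * (((m : ℝ) + 1) ^ 2 / (4 * b ^ 3) +
              (0.7 * (m + 1) / b) ^ 2 * (1 / (2 * b))) := by gcongr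
          _ = Real.pi * ((0.495 / 0.7) * (m + 1) / b ^ 2) := by
              field_simp
              ring
          _ ≤ 3.1416 * (0.70715 * (m + 1) / b ^ 2) := by
              gcongr
              norm_num
          _ = 3.1416 * 0.70715 * (m + 1) / b ^ 2 := by ring
      have h4 : (2 * b + m + 1) ^ 2 ≤ 9 * b ^ 2 := by
        have : 2 * b + m + 1 ≤ 3 * b := by linarith
        have h5 : 0 ≤ 2 * b + m + 1 := by positivity
        nlinarith
      calc ((2 * b + m + 1) * I) ^ 2 = (2 * b + m + 1) ^ 2 * I ^ 2 := by ring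
        _ ≤ (9 * b ^ 2) * (3.1416 * 0.70715 * (m + 1) / b ^ 2) := by gcongr
        _ = 9 * 3.1416 * 0.70715 * ((m : ℝ) + 1) := by
            field_simp
        _ ≤ (3.6845 * ((m : ℝ) + 2)) ^ 2 := by
            nlinarith [sq_nonneg ((m : ℝ))]
  exact le_of_sq_le_sq hmain (by positivity)

end KB

theorem ker_L1 (b : ℝ) (hb : 1 / 2 ≤ b) (K : ℕ) (hK : 1 ≤ K) :
    ∫ u in Ioi (0 : ℝ), |ker b K b u| ≤ Real.exp 2 * K - 1 := by
  have hb0 : 0 < b := by linarith
  have hexp : (7.389 : ℝ) ≤ Real.exp 2 := by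
    have h1 := Real.exp_one_gt_d9
    have h2 : Real.exp 2 = Real.exp 1 ^ 2 := by
      rw [← Real.exp_nat_mul]
      norm_num
    rw [h2]
    nlinarith
  rcases Nat.lt_or_ge K 2 with hK2 | hK2
  · obtain rfl : K = 1 := by omega
    have e1 : ∀ u : ℝ, |ker b 1 b u| = (2 * b + 1) * Real.exp (-b * u) := by
      intro u
      have : ker b 1 b u = (2 * b + 1) * Real.exp (-b * u) := by
        simp [ker, rc]
      rw [this, abs_of_nonneg (by positivity)]
    simp_rw [e1]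
    rw [integral_const_mul, integral_exp_mul_Ioi (by linarith : -b < 0) 0]
    have e2 : (2 * b + 1) * (-Real.exp (-b * 0) / -b) = 2 + 1 / b := by
      rw [mul_zero, Real.exp_zero]
      field_simp
    rw [e2]
    have h3 : 1 / b ≤ 2 := by
      rw [div_le_iff₀ hb0]
      linarith
    push_cast
    linarith
  · obtain ⟨m, rfl⟩ : ∃ m, K = m + 1 := ⟨K - 1, by omega⟩
    have hm : 1 ≤ m := by omega
    have hm1 : (1 : ℝ) ≤ m := by exact_mod_cast hm
    obtain ⟨h1, h2⟩ := KB.kk_abs b hb m hm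
    obtain ⟨h3, h4⟩ := KB.eta_abs b hb m hm
    have h5 : ∫ u in Ioi (0 : ℝ), |ker b (m + 1) b u| ≤
        ∫ u in Ioi (0 : ℝ), (|kk b m u| + (2 * b + m + 1) * |eta b m b u|) := by
      refine integral_mono_of_nonneg (Eventually.of_forall fun u => abs_nonneg _)
        (h1.abs.add (h3.abs.const_mul _)) (Eventually.of_forall fun u => ?_)
      simp only
      rw [ker_eq b hb0.le m u]
      refine (abs_add_le _ _).trans (le_of_eq ?_)
      rw [abs_mul, abs_of_nonneg (by positivity : 0 ≤ 2 * b + (m : ℝ) + 1)]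
    rw [integral_add h1.abs (h3.abs.const_mul _), integral_const_mul] at h5
    push_cast
    have h6 : (7.389 : ℝ) * (m + 1) ≤ Real.exp 2 * (m + 1) := by gcongr
    linarith

theorem ker_L1_zero (K : ℕ) (hK : 1 ≤ K) :
    ∫ u in Ioi (0 : ℝ), |ker 0 K 1 u| ≤ K := by
  have hK0 : (0 : ℝ) < K := by exact_mod_cast hK
  -- the sum of the residues
  have hsum : ∑ j ∈ Finset.range K, rc 0 K j = (K : ℝ) ^ 2 := by
    obtain ⟨m, rfl⟩ : ∃ m, K = m + 1 := ⟨K - 1, by omega⟩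
    have h1 := ker_eq 0 le_rfl m 0
    have h2 : ker 0 (m + 1) 0 0 = ∑ j ∈ Finset.range (m + 1), rc 0 (m + 1) j := by
      simp [ker]
    have h3 : eta 0 m 0 0 = 1 := by
      apply eta_zero
      intro i _ h
      have : (0 : ℝ) ≤ i := Nat.cast_nonneg i
      linarith
    have h4 : ∀ m : ℕ, kk 0 m 0 = m * (m + 1) := by
      intro m
      induction m with
      | zero => simp [kk]
      | succ m ih =>
        have h5 : eta 0 m (0 + m + 1) 0 = 1 := by
          apply eta_zero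
          intro i hi h
          have : (i : ℝ) < m := by exact_mod_cast hi
          linarith
        rw [kk, ih, h5]
        push_cast
        ring
    rw [← h2, h1, h3, h4]
    push_cast
    ring
  -- the square
  have hexp : ∀ i j : ℕ, IntegrableOn (fun u : ℝ => Real.exp (-(1 + i + j) * u)) (Ioi 0) ∧
      ∫ u in Ioi (0 : ℝ), Real.exp (-(1 + (i : ℝ) + j) * u) = 1 / (1 + i + j) := by
    intro i j
    have h1 : -(1 + (i : ℝ) + j) < 0 := by
      have : (0 : ℝ) ≤ i := Nat.cast_nonneg i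
      have : (0 : ℝ) ≤ j := Nat.cast_nonneg j
      linarith
    refine ⟨integrableOn_exp_mul_Ioi h1 0, ?_⟩
    rw [integral_exp_mul_Ioi h1 0, mul_zero, Real.exp_zero, neg_div_neg_eq]
  have hsq : ∀ u : ℝ, Real.exp (-u) * ker 0 K 0 u ^ 2 = ∑ i ∈ Finset.range K,
      ∑ j ∈ Finset.range K, rc 0 K i * rc 0 K j * Real.exp (-(1 + (i : ℝ) + j) * u) := by
    intro u
    rw [sq]
    unfold ker
    rw [Finset.sum_mul_sum, Finset.mul_sum]
    refine Finset.sum_congr rfl fun i _ => ?_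
    rw [Finset.mul_sum]
    refine Finset.sum_congr rfl fun j _ => ?_
    have : Real.exp (-(1 + (i : ℝ) + j) * u) = Real.exp (-u) * Real.exp (-(0 + (i : ℝ)) * u) *
        Real.exp (-(0 + (j : ℝ)) * u) := by
      rw [← Real.exp_add, ← Real.exp_add]
      congr 1
      ring
    rw [this]
    ring
  have hI : IntegrableOn (fun u : ℝ => Real.exp (-u) * ker 0 K 0 u ^ 2) (Ioi 0) ∧
      ∫ u in Ioi (0 : ℝ), Real.exp (-u) * ker 0 K 0 u ^ 2 = (K : ℝ) ^ 2 := by
    simp_rw [hsq]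
    have hi : ∀ i j : ℕ, IntegrableOn (fun u : ℝ => rc 0 K i * rc 0 K j *
        Real.exp (-(1 + (i : ℝ) + j) * u)) (Ioi 0) := fun i j => (hexp i j).1.const_mul _
    refine ⟨integrable_finsetSum _ fun i _ => integrable_finsetSum _ fun j _ => hi i j, ?_⟩
    rw [integral_finsetSum _ fun i _ => integrable_finsetSum _ fun j _ => hi i j]
    simp_rw [integral_finsetSum _ fun j _ => hi _ j, integral_const_mul, (hexp _ _).2]
    rw [Finset.sum_comm, ← hsum]
    refine Finset.sum_congr rfl fun j hj => ?_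
    have h1 := rc_cauchy 0 le_rfl K j (Finset.mem_range.1 hj)
    have h2 : ∑ i ∈ Finset.range K, rc 0 K i * rc 0 K j * (1 / (1 + (i : ℝ) + j)) =
        rc 0 K j * ∑ i ∈ Finset.range K, rc 0 K i / (2 * 0 + 1 + i + j) := by
      rw [Finset.mul_sum]
      refine Finset.sum_congr rfl fun i _ => ?_
      rw [mul_zero, zero_add]
      ring
    rw [h2, h1, mul_one]
  have hE : IntegrableOn (fun u : ℝ => Real.exp (-u)) (Ioi 0) ∧
      ∫ u in Ioi (0 : ℝ), Real.exp (-u) = 1 := by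
    have := hexp 0 0
    simpa using this
  have h1 : ∫ u in Ioi (0 : ℝ), |ker 0 K 1 u| ≤ ∫ u in Ioi (0 : ℝ), (((K : ℝ) / 2) *
      Real.exp (-u) + (1 / (2 * (K : ℝ))) * (Real.exp (-u) * ker 0 K 0 u ^ 2)) := by
    refine integral_mono_of_nonneg (Eventually.of_forall fun u => abs_nonneg _)
      ((hE.1.const_mul _).add (hI.1.const_mul _)) (Eventually.of_forall fun u => ?_)
    simp only
    have e1 : ker 0 K 1 u = Real.exp (-u) * ker 0 K 0 u := by
      unfold ker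
      rw [Finset.mul_sum]
      refine Finset.sum_congr rfl fun i _ => ?_
      have : Real.exp (-(1 + (i : ℝ)) * u) = Real.exp (-u) * Real.exp (-(0 + (i : ℝ)) * u) := by
        rw [← Real.exp_add]
        congr 1
        ring
      rw [this]
      ring
    rw [e1, abs_mul, Real.abs_exp]
    have e2 : |ker 0 K 0 u| ≤ (K : ℝ) / 2 + (1 / (2 * (K : ℝ))) * ker 0 K 0 u ^ 2 := by
      rw [← sub_nonneg]
      have e3 : (K : ℝ) / 2 + (1 / (2 * (K : ℝ))) * ker 0 K 0 u ^ 2 - |ker 0 K 0 u| =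
          (|ker 0 K 0 u| - K) ^ 2 / (2 * K) := by
        rw [← sq_abs (ker 0 K 0 u)]
        field_simp
        ring
      rw [e3]
      positivity
    calc Real.exp (-u) * |ker 0 K 0 u| ≤ Real.exp (-u) *
        ((K : ℝ) / 2 + (1 / (2 * (K : ℝ))) * ker 0 K 0 u ^ 2) :=
          mul_le_mul_of_nonneg_left e2 (Real.exp_pos _).le
      _ = _ := by ring
  refine h1.trans (le_of_eq ?_)
  rw [integral_add (hE.1.const_mul _) (hI.1.const_mul _), integral_const_mul, integral_const_mul,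
    hE.2, hI.2]
  field_simp
  ring

end Pool.Agent.Helper68.BA
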